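import Pool.Agent.helper20.SOL.Spec

/-!
# Project sol (MP_cad530_co): row PAT
-/

set_option autoImplicit false

namespace Pool.Agent.SOL

open Pool.Agent.helper54.SOG Finset

open scoped BigOperators

theorem PAT_count {n : ℕ} (f : Fin n → ℤ × ℤ) (T : Finset (ℤ × ℤ)) (hf : ∀ j, f j ∈ T)
    (N : ℤ × ℤ → ℕ) (hN : ∀ b ∈ T, (univ.filter fun j => f j = b).card = N b)
    (Q : ℤ × ℤ → Prop) [DecidablePred Q] :
    (univ.filter fun j => Q (f j)).card = ∑ b ∈ T, if Q b then N b else 0 := by
  rw [Finset.card_eq_sum_card_fiberwise (f := f) (t := T) (fun j _ => hf j)]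
  refine Finset.sum_congr rfl fun b hb => ?_
  rw [Finset.filter_filter]
  split_ifs with h
  · rw [← hN b hb]
    congr 1
    ext j
    simp only [Finset.mem_filter, Finset.mem_univ, true_and]
    constructor
    · exact fun hj => hj.2
    · intro hj
      exact ⟨by rw [hj]; exact h, hj⟩
  · rw [Finset.card_eq_zero, Finset.filter_eq_empty_iff]
    rintro j _ ⟨h1, h2⟩
    rw [h2] at h1
    exact h h1

/-- the list of pairs with a nonzero pattern value -/
def PAT_T : Finset (ℤ × ℤ) :=
  {(2, 2), (2, 0), (2, 1), (1, 1), (1, 0), (1, 2), (1, -1), (0, 2), (0, 1), (0, 0)}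

theorem PAT_core (hEXT : EXT_stmt) (n : ℕ) (x : Vec n)
    (c22 c20 c21 c11 c10 c12 c1m c02 c01 c00 : ℕ) (hx : ∀ j, |x j| ≤ 2)
    (h2 : cnt x 2 = c22 + c20 + c21) (h1 : cnt x 1 = c11 + c10 + c12 + c1m)
    (h0 : cnt x 0 = c02 + c01 + c00) (F : Finset (Fin n)) (g : Fin n → ℤ)
    (hF : ∀ p q : ℤ, (F.filter fun j => |x j| = p ∧ g j = q).card ≤
      pat c22 c20 c21 c11 c10 c12 c1m c02 c01 c00 p q) :
    ∃ y : Vec n, y ∈ TD n (c22 + c12 + c02) (c11 + c1m + c21 + c01) ∧
      x - y ∈ TD n (c20 + c1m + c02) (c21 + c12 + c10 + c01) ∧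
      ∀ j ∈ F, y j = sg (x j) * g j := by
  classical
  set c := pat c22 c20 c21 c11 c10 c12 c1m c02 c01 c00 with hc
  -- the extension on one level
  have key : ∀ (A : ℤ) (K : Finset ℤ), (∀ q, q ∉ K → c A q = 0) → ∑ l ∈ K, c A l = cnt x A →
      ∃ h : Fin n → ℤ, (∀ j ∈ F, |x j| = A → h j = g j) ∧ (∀ j, |x j| = A → h j ∈ K) ∧
        ∀ l ∈ K, (univ.filter fun j => |x j| = A ∧ h j = l).card = c A l := by
    intro A K hK hs
    obtain ⟨h, ha, hb, hd⟩ := hEXT n (univ.filter fun j => |x j| = A)
      (F.filter fun j => |x j| = A) K (c A) g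
      (Finset.filter_subset_filter _ (Finset.subset_univ F)) hs
      (fun j hj => by
        by_contra hcon
        have e1 := hF A (g j)
        rw [hK _ hcon] at e1
        have e2 : j ∈ F.filter fun j' => |x j'| = A ∧ g j' = g j := by
          rw [Finset.mem_filter] at hj ⊢
          exact ⟨hj.1, hj.2, rfl⟩
        have := Finset.card_pos.2 ⟨j, e2⟩
        omega)
      (fun l _ => by
        rw [Finset.filter_filter]
        exact hF A l)
    refine ⟨h, fun j hj hjA => ha j (Finset.mem_filter.2 ⟨hj, hjA⟩),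
      fun j hj => hb j (Finset.mem_filter.2 ⟨Finset.mem_univ j, hj⟩), fun l hl => ?_⟩
    have := hd l hl
    rw [Finset.filter_filter] at this
    exact this
  obtain ⟨k2, k2a, k2b, k2c⟩ := key 2 {2, 0, 1} (by
      intro q hq
      simp only [Finset.mem_insert, Finset.mem_singleton, not_or] at hq
      simp [hc, pat, hq.1, hq.2.1, hq.2.2])
    (by
      rw [h2]
      simp [hc, pat]
      ring)
  obtain ⟨k1, k1a, k1b, k1c⟩ := key 1 {1, 0, 2, -1} (by
      intro q hq
      simp only [Finset.mem_insert, Finset.mem_singleton, not_or] at hq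
      simp [hc, pat, hq.1, hq.2.1, hq.2.2.1, hq.2.2.2])
    (by
      rw [h1]
      simp [hc, pat]
      ring)
  obtain ⟨k0, k0a, k0b, k0c⟩ := key 0 {2, 1, 0} (by
      intro q hq
      simp only [Finset.mem_insert, Finset.mem_singleton, not_or] at hq
      simp [hc, pat, hq.1, hq.2.1, hq.2.2])
    (by
      rw [h0]
      simp [hc, pat]
      ring)
  have hlev : ∀ j, |x j| = 2 ∨ |x j| = 1 ∨ |x j| = 0 := by
    intro j
    have e1 := hx j
    have e2 := abs_nonneg (x j)
    omega
  set h : Fin n → ℤ := fun j => if |x j| = 2 then k2 j else if |x j| = 1 then k1 j else k0 j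
    with hh
  have hh2 : ∀ j, |x j| = 2 → h j = k2 j := by
    intro j hj
    simp [hh, hj]
  have hh1 : ∀ j, |x j| = 1 → h j = k1 j := by
    intro j hj
    simp [hh, hj]
  have hh0 : ∀ j, |x j| = 0 → h j = k0 j := by
    intro j hj
    have : x j = 0 := abs_eq_zero.1 hj
    simp [hh, this]
  set f : Fin n → ℤ × ℤ := fun j => (|x j|, h j) with hf
  have hfT : ∀ j, f j ∈ PAT_T := by
    intro j
    rcases hlev j with hj | hj | hj
    · have := k2b j hj
      simp only [Finset.mem_insert, Finset.mem_singleton] at this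
      have e0 : f j = (2, k2 j) := by
        simp only [hf, hj, hh2 j hj]
      rw [e0]
      rcases this with e | e | e <;> rw [e] <;> simp [PAT_T]
    · have := k1b j hj
      simp only [Finset.mem_insert, Finset.mem_singleton] at this
      have e0 : f j = (1, k1 j) := by
        simp only [hf, hj, hh1 j hj]
      rw [e0]
      rcases this with e | e | e | e <;> rw [e] <;> simp [PAT_T]
    · have := k0b j hj
      simp only [Finset.mem_insert, Finset.mem_singleton] at this
      have e0 : f j = (0, k0 j) := by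
        simp only [hf, hj, hh0 j hj]
      rw [e0]
      rcases this with e | e | e <;> rw [e] <;> simp [PAT_T]
  have hfN : ∀ b ∈ PAT_T, (univ.filter fun j => f j = b).card = c b.1 b.2 := by
    have l2 : ∀ l ∈ ({2, 0, 1} : Finset ℤ),
        (univ.filter fun j => f j = (2, l)).card = c 2 l := by
      intro l hl
      rw [← k2c l hl]
      congr 1
      ext j
      simp only [hf, Finset.mem_filter, Finset.mem_univ, true_and, Prod.mk.injEq]
      exact and_congr_right fun hj => by rw [hh2 j hj]
    have l1 : ∀ l ∈ ({1, 0, 2, -1} : Finset ℤ),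
        (univ.filter fun j => f j = (1, l)).card = c 1 l := by
      intro l hl
      rw [← k1c l hl]
      congr 1
      ext j
      simp only [hf, Finset.mem_filter, Finset.mem_univ, true_and, Prod.mk.injEq]
      exact and_congr_right fun hj => by rw [hh1 j hj]
    have l0 : ∀ l ∈ ({2, 1, 0} : Finset ℤ),
        (univ.filter fun j => f j = (0, l)).card = c 0 l := by
      intro l hl
      rw [← k0c l hl]
      congr 1
      ext j
      simp only [hf, Finset.mem_filter, Finset.mem_univ, true_and, Prod.mk.injEq]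
      exact and_congr_right fun hj => by rw [hh0 j hj]
    intro b hb
    simp only [PAT_T, Finset.mem_insert, Finset.mem_singleton] at hb
    rcases hb with rfl | rfl | rfl | rfl | rfl | rfl | rfl | rfl | rfl | rfl
    · exact l2 2 (by simp)
    · exact l2 0 (by simp)
    · exact l2 1 (by simp)
    · exact l1 1 (by simp)
    · exact l1 0 (by simp)
    · exact l1 2 (by simp)
    · exact l1 (-1) (by simp)
    · exact l0 2 (by simp)
    · exact l0 1 (by simp)
    · exact l0 0 (by simp)
  have hsum : ∀ (Q : ℤ × ℤ → Prop) [DecidablePred Q],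
      (univ.filter fun j => Q (f j)).card = ∑ b ∈ PAT_T, if Q b then c b.1 b.2 else 0 := by
    intro Q _
    exact PAT_count f PAT_T hfT (fun b => c b.1 b.2) hfN Q
  have hsg : ∀ z : ℤ, |sg z| = 1 := by
    intro z
    unfold sg
    split_ifs <;> simp
  have hsgx : ∀ z : ℤ, z = sg z * |z| := by
    intro z
    unfold sg
    split_ifs with hz
    · rw [abs_of_neg hz]
      ring
    · rw [abs_of_nonneg (not_lt.1 hz)]
      ring
  have hy : ∀ j, |sg (x j) * h j| = |h j| := by
    intro j
    rw [abs_mul, hsg, one_mul]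
  have hxy : ∀ j, |x j - sg (x j) * h j| = |(|x j|) - h j| := by
    intro j
    have e1 : x j - sg (x j) * h j = sg (x j) * (|x j| - h j) := by
      rw [mul_sub, ← hsgx]
    rw [e1, abs_mul, hsg, one_mul]
  have hTD : ∀ (w : Vec n) (G : ℤ × ℤ → ℤ), (∀ j, |w j| = G (f j)) → (∀ b ∈ PAT_T, G b ≤ 2) →
      w ∈ TD n (∑ b ∈ PAT_T, if G b = 2 then c b.1 b.2 else 0)
        (∑ b ∈ PAT_T, if G b = 1 then c b.1 b.2 else 0) := by
    intro w G hw hG
    refine ⟨fun j => by rw [hw j]; exact hG _ (hfT j), ?_, ?_⟩
    · rw [← hsum fun b => G b = 2]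
      unfold cnt
      congr 1
      ext j
      simp only [Finset.mem_filter, Finset.mem_univ, true_and, hw j]
    · rw [← hsum fun b => G b = 1]
      unfold cnt
      congr 1
      ext j
      simp only [Finset.mem_filter, Finset.mem_univ, true_and, hw j]
  refine ⟨fun j => sg (x j) * h j, ?_, ?_, ?_⟩
  · have := hTD (fun j => sg (x j) * h j) (fun b => |b.2|) (fun j => hy j) (by decide)
    have e1 : (∑ b ∈ PAT_T, if |b.2| = 2 then c b.1 b.2 else 0) = c22 + c12 + c02 := by
      simp [PAT_T, hc, pat]
      try ring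
    have e2 : (∑ b ∈ PAT_T, if |b.2| = 1 then c b.1 b.2 else 0) = c11 + c1m + c21 + c01 := by
      simp [PAT_T, hc, pat]
      try ring
    rw [e1, e2] at this
    exact this
  · have := hTD (x - fun j => sg (x j) * h j) (fun b => |b.1 - b.2|)
      (fun j => by rw [Pi.sub_apply]; exact hxy j) (by decide)
    have e1 : (∑ b ∈ PAT_T, if |b.1 - b.2| = 2 then c b.1 b.2 else 0) = c20 + c1m + c02 := by
      simp [PAT_T, hc, pat]
      try ring
    have e2 : (∑ b ∈ PAT_T, if |b.1 - b.2| = 1 then c b.1 b.2 else 0) =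
        c21 + c12 + c10 + c01 := by
      simp [PAT_T, hc, pat]
      try ring
    rw [e1, e2] at this
    exact this
  · intro j hj
    have : h j = g j := by
      rcases hlev j with hj' | hj' | hj'
      · rw [hh2 j hj', k2a j hj hj']
      · rw [hh1 j hj', k1a j hj hj']
      · rw [hh0 j hj', k0a j hj hj']
    show sg (x j) * h j = _
    rw [this]

theorem PAT (hEXT : EXT_stmt) : PAT_stmt := by
  classical
  refine ⟨?_, ?_, ?_⟩
  · intro n x c22 c20 c21 c11 c10 c12 c1m c02 c01 c00 hx h2 h1 h0 i a b vi va vb hia hib hab hF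
    obtain ⟨y, hy1, hy2, hy3⟩ := PAT_core hEXT n x c22 c20 c21 c11 c10 c12 c1m c02 c01 c00 hx
      h2 h1 h0 {i, a, b} (fun j => if j = i then vi else if j = a then va else vb) (by
        intro p q
        rw [Finset.card_filter, Finset.sum_insert (by simp [hia, hib]),
          Finset.sum_insert (by simp [hab]), Finset.sum_singleton]
        have := hF p q
        simp only [if_true, if_neg hia.symm, if_neg hib.symm, if_neg hab.symm]
        omega)
    refine ⟨y, hy1, hy2, ?_, ?_, ?_⟩
    · have := hy3 i (by simp)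
      simpa using this
    · have := hy3 a (by simp)
      simpa [hia.symm] using this
    · have := hy3 b (by simp)
      simpa [hib.symm, hab.symm] using this
  · intro n x c22 c20 c21 c11 c10 c12 c1m c02 c01 c00 hx h2 h1 h0 i a vi va hia hF
    obtain ⟨y, hy1, hy2, hy3⟩ := PAT_core hEXT n x c22 c20 c21 c11 c10 c12 c1m c02 c01 c00 hx
      h2 h1 h0 {i, a} (fun j => if j = i then vi else va) (by
        intro p q
        rw [Finset.card_filter, Finset.sum_insert (by simp [hia]), Finset.sum_singleton]
        have := hF p q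
        simp only [if_true, if_neg hia.symm]
        omega)
    refine ⟨y, hy1, hy2, ?_, ?_⟩
    · have := hy3 i (by simp)
      simpa using this
    · have := hy3 a (by simp)
      simpa [hia.symm] using this
  · intro n x c22 c20 c21 c11 c10 c12 c1m c02 c01 c00 hx h2 h1 h0 i vi hF
    obtain ⟨y, hy1, hy2, hy3⟩ := PAT_core hEXT n x c22 c20 c21 c11 c10 c12 c1m c02 c01 c00 hx
      h2 h1 h0 {i} (fun _ => vi) (by
        intro p q
        rw [Finset.card_filter, Finset.sum_singleton]
        exact hF p q)
    exact ⟨y, hy1, hy2, hy3 i (by simp)⟩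

end Pool.Agent.SOL
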